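import Mathlib
import Pool.Agent.W2helper16.RW.Stm

set_option autoImplicit false

namespace Pool.Agent.W2helper11.RW

open Pool.Agent.W2helper16.RW

lemma gcd_sum (M r T : ℕ) (hM : 4 ≤ M) (hr : 2 ≤ r) (hT : (r - 1).divisors.card ≤ T) :
    ∑ p ∈ Finset.Ico M (2 * M), (r - 1).gcd (p - 1) ≤ 2 * M * T := by
  classical
  have h1 : ∀ p ∈ Finset.Ico M (2 * M), (r - 1).gcd (p - 1)
      ≤ ∑ d ∈ (r - 1).divisors, if d ∣ p - 1 then d else 0 := by
    intro p _
    have h2 : (r - 1).gcd (p - 1) ∈ (r - 1).divisors :=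
      Nat.mem_divisors.2 ⟨Nat.gcd_dvd_left _ _, by omega⟩
    calc (r - 1).gcd (p - 1)
        = (if (r - 1).gcd (p - 1) ∣ p - 1 then (r - 1).gcd (p - 1) else 0) :=
          (if_pos (Nat.gcd_dvd_right _ _)).symm
      _ ≤ _ := Finset.single_le_sum (f := fun d => if d ∣ p - 1 then d else 0)
          (fun _ _ => Nat.zero_le _) h2
  refine (Finset.sum_le_sum h1).trans ?_
  rw [Finset.sum_comm]
  have h3 : ∀ d ∈ (r - 1).divisors,
      ∑ p ∈ Finset.Ico M (2 * M), (if d ∣ p - 1 then d else 0) ≤ 2 * M := by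
    intro d hd
    have hd0 : 0 < d := Nat.pos_of_mem_divisors hd
    rw [← Finset.sum_filter, Finset.sum_const, smul_eq_mul]
    have h4 : ((Finset.Ico M (2 * M)).filter (fun p => d ∣ p - 1)).card ≤ (2 * M) / d := by
      have h5 : (Finset.Icc 1 ((2 * M) / d)).card = (2 * M) / d := by
        rw [Nat.card_Icc]; exact Nat.add_sub_cancel _ _
      rw [← h5]
      refine Finset.card_le_card_of_injOn (fun p => (p - 1) / d) (fun p hp => ?_)
        (fun p hp q hq hpq => ?_)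
      · rw [Finset.mem_coe, Finset.mem_filter, Finset.mem_Ico] at hp
        rw [Finset.mem_coe, Finset.mem_Icc]
        refine ⟨?_, Nat.div_le_div_right (by omega)⟩
        exact Nat.div_pos (Nat.le_of_dvd (by omega) hp.2) hd0
      · rw [Finset.mem_coe, Finset.mem_filter, Finset.mem_Ico] at hp hq
        obtain ⟨a, ha⟩ := hp.2
        obtain ⟨b, hb⟩ := hq.2
        simp only at hpq
        rw [ha, hb, Nat.mul_div_cancel_left _ hd0, Nat.mul_div_cancel_left _ hd0] at hpq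
        rw [← hpq] at hb
        omega
    calc _ ≤ (2 * M) / d * d := Nat.mul_le_mul_right _ h4
      _ ≤ 2 * M := Nat.div_mul_le_self _ _
  calc _ ≤ ∑ d ∈ (r - 1).divisors, 2 * M := Finset.sum_le_sum h3
    _ = (r - 1).divisors.card * (2 * M) := by rw [Finset.sum_const, smul_eq_mul]
    _ ≤ T * (2 * M) := Nat.mul_le_mul_right _ hT
    _ = 2 * M * T := Nat.mul_comm _ _

lemma cong {m c P P' n n' : ℕ} (hn : n = c * P) (hn' : n' = c * P') (h1 : 1 < n) (h1' : 1 < n')
    (hd : m ∣ n - 1) (hd' : m ∣ n' - 1) : P ≡ P' [MOD m] := by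
  have e1 : 1 ≡ n [MOD m] := (Nat.modEq_iff_dvd' h1.le).2 hd
  have e2 : 1 ≡ n' [MOD m] := (Nat.modEq_iff_dvd' h1'.le).2 hd'
  have e3 : c * P ≡ c * P' [MOD m] := by
    rw [← hn, ← hn']
    exact e1.symm.trans e2
  refine Nat.ModEq.cancel_left_of_coprime ?_ e3
  have h2 : m.gcd c ∣ n := (Nat.gcd_dvd_right m c).trans ⟨P, hn⟩
  have h3 : m.gcd c ∣ n - 1 := (Nat.gcd_dvd_left m c).trans hd
  have h4 : m.gcd c ∣ n - (n - 1) := Nat.dvd_sub h2 h3
  have h5 : n - (n - 1) = 1 := by omega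
  rw [h5] at h4
  exact Nat.dvd_one.1 h4

lemma cong_lcm {a b P P' : ℕ} (h : P ≡ P' [MOD a]) (h' : P ≡ P' [MOD b]) :
    P ≡ P' [MOD a.lcm b] := by
  rw [Nat.modEq_iff_dvd, Int.natCast_dvd] at *
  exact Nat.lcm_dvd h h'

theorem degk : DEGK := by
  classical
  intro M T r k hM hk hT hr hMr hr2 S hS
  have hp : ∀ p ∈ Finset.Ico M (2 * M),
      (S.filter (fun n => p.Prime ∧ p ≠ r ∧ p ∣ n)).card
        ≤ 2 ^ (k - 1) * M ^ (k - 4) * (r - 1).gcd (p - 1) + 1 := by
    intro p hpM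
    rw [Finset.mem_Ico] at hpM
    by_cases hpr : p.Prime ∧ p ≠ r
    swap
    · rw [Finset.filter_false_of_mem (fun n _ h => hpr ⟨h.1, h.2.1⟩), Finset.card_empty]
      exact Nat.zero_le _
    obtain ⟨hpp, hne⟩ := hpr
    have hl : (r - 1).gcd (p - 1) * (r - 1).lcm (p - 1) = (r - 1) * (p - 1) :=
      Nat.gcd_mul_lcm _ _
    have hX : (2 * M) ^ (k - 2)
        ≤ (2 ^ (k - 1) * M ^ (k - 4) * (r - 1).gcd (p - 1)) * (r - 1).lcm (p - 1) := by
      have e1 : M ^ 2 ≤ 2 * ((r - 1) * (p - 1)) := by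
        have e2 : (M - 1) * (M - 1) ≤ (r - 1) * (p - 1) := Nat.mul_le_mul (by omega) (by omega)
        obtain ⟨a, rfl⟩ : ∃ a, M = a + 4 := ⟨M - 4, by omega⟩
        have e3 : a + 4 - 1 = a + 3 := by omega
        rw [e3] at e2
        nlinarith
      obtain ⟨j, rfl⟩ : ∃ j, k = j + 4 := ⟨k - 4, by omega⟩
      have e2 : j + 4 - 2 = j + 2 := by omega
      have e3 : j + 4 - 1 = j + 3 := by omega
      have e4 : j + 4 - 4 = j := by omega
      rw [e2, e3, e4, mul_assoc, hl]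
      calc (2 * M) ^ (j + 2) = 2 ^ (j + 2) * M ^ j * M ^ 2 := by ring
        _ ≤ 2 ^ (j + 2) * M ^ j * (2 * ((r - 1) * (p - 1))) := Nat.mul_le_mul_left _ e1
        _ = _ := by ring
    have key : ∀ n ∈ S.filter (fun n => p.Prime ∧ p ≠ r ∧ p ∣ n),
        n = (r * p) * (n / (r * p)) ∧ n / (r * p) ≤ (2 * M) ^ (k - 2) ∧ r - 1 ∣ n - 1 ∧
          p - 1 ∣ n - 1 ∧ 1 < n := by
      intro n hn
      rw [Finset.mem_filter] at hn
      obtain ⟨hnS, -, -, hpn⟩ := hn
      obtain ⟨⟨h1, h2, h3, h4⟩, h5, h6, h7⟩ := hS n hnS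
      have hn0 : n ≠ 0 := by omega
      have hrm : r ∈ n.primeFactors := Nat.mem_primeFactors.2 ⟨hr, h5, hn0⟩
      have hpm : p ∈ n.primeFactors.erase r :=
        Finset.mem_erase.2 ⟨hne, Nat.mem_primeFactors.2 ⟨hpp, hpn, hn0⟩⟩
      have h8 : n = (r * p) * ∏ q ∈ (n.primeFactors.erase r).erase p, q := by
        conv_lhs => rw [← Nat.prod_primeFactors_of_squarefree h3]
        rw [← Finset.mul_prod_erase _ _ hrm, ← Finset.mul_prod_erase _ _ hpm, mul_assoc]
      have h9 : n / (r * p) = ∏ q ∈ (n.primeFactors.erase r).erase p, q := by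
        conv_lhs => rw [h8]
        exact Nat.mul_div_cancel_left _ (Nat.mul_pos hr.pos hpp.pos)
      refine ⟨by rw [h9]; exact h8, ?_, h4 r hr h5, h4 p hpp hpn, h1⟩
      rw [h9]
      have h10 : ((n.primeFactors.erase r).erase p).card = k - 2 := by
        rw [Finset.card_erase_of_mem hpm, Finset.card_erase_of_mem hrm, h6]
        omega
      rw [← h10]
      refine Finset.prod_le_pow_card _ _ _ (fun q hq => ?_)
      have hq1 := Finset.mem_of_mem_erase (Finset.mem_of_mem_erase hq)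
      exact (h7 q (Nat.prime_of_mem_primeFactors hq1) (Nat.dvd_of_mem_primeFactors hq1)).2.le
    have hcard : (S.filter (fun n => p.Prime ∧ p ≠ r ∧ p ∣ n)).card
        ≤ (2 * M) ^ (k - 2) / (r - 1).lcm (p - 1) + 1 := by
      have h5 : (Finset.range ((2 * M) ^ (k - 2) / (r - 1).lcm (p - 1) + 1)).card
          = (2 * M) ^ (k - 2) / (r - 1).lcm (p - 1) + 1 := Finset.card_range _
      rw [← h5]
      refine Finset.card_le_card_of_injOn (fun n => n / (r * p) / (r - 1).lcm (p - 1))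
        (fun n hn => ?_) (fun n hn n' hn' hnn => ?_)
      · obtain ⟨-, h2, -⟩ := key n hn
        rw [Finset.mem_coe, Finset.mem_range]
        exact Nat.lt_succ_of_le (Nat.div_le_div_right h2)
      · obtain ⟨a1, -, a3, a4, a5⟩ := key n hn
        obtain ⟨b1, -, b3, b4, b5⟩ := key n' hn'
        have c1 := cong_lcm (cong a1 b1 a5 b5 a3 b3) (cong a1 b1 a5 b5 a4 b4)
        simp only at hnn
        have c2 : n / (r * p) = n' / (r * p) := by
          rw [← Nat.div_add_mod (n / (r * p)) ((r - 1).lcm (p - 1)),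
            ← Nat.div_add_mod (n' / (r * p)) ((r - 1).lcm (p - 1)), hnn]
          congr 1
        rw [a1, b1, c2]
    refine hcard.trans (Nat.add_le_add_right ?_ 1)
    exact Nat.div_le_of_le_mul (hX.trans_eq (Nat.mul_comm _ _))
  have hsub : S ⊆ (Finset.Ico M (2 * M)).biUnion
      (fun p => S.filter (fun n => p.Prime ∧ p ≠ r ∧ p ∣ n)) := by
    intro n hn
    obtain ⟨⟨h1, h2, h3, h4⟩, h5, h6, h7⟩ := hS n hn
    obtain ⟨p, hp1, hp2⟩ := Finset.exists_mem_ne (s := n.primeFactors) (by omega) r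
    have hpp := Nat.prime_of_mem_primeFactors hp1
    have hpn := Nat.dvd_of_mem_primeFactors hp1
    rw [Finset.mem_biUnion]
    exact ⟨p, Finset.mem_Ico.2 (h7 p hpp hpn), Finset.mem_filter.2 ⟨hn, hpp, hp2, hpn⟩⟩
  calc S.card ≤ _ := Finset.card_le_card hsub
    _ ≤ ∑ p ∈ Finset.Ico M (2 * M), (S.filter (fun n => p.Prime ∧ p ≠ r ∧ p ∣ n)).card :=
        Finset.card_biUnion_le
    _ ≤ ∑ p ∈ Finset.Ico M (2 * M), (2 ^ (k - 1) * M ^ (k - 4) * (r - 1).gcd (p - 1) + 1) :=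
        Finset.sum_le_sum hp
    _ = 2 ^ (k - 1) * M ^ (k - 4) * ∑ p ∈ Finset.Ico M (2 * M), (r - 1).gcd (p - 1) + M := by
        rw [Finset.sum_add_distrib, ← Finset.mul_sum, Finset.sum_const, Nat.card_Ico, smul_eq_mul,
          mul_one]
        congr 1
        omega
    _ ≤ 2 ^ (k - 1) * M ^ (k - 4) * (2 * M * T) + M := by
        have := gcd_sum M r T hM hr.two_le hT
        gcongr
    _ = M + 2 ^ k * M ^ (k - 3) * T := by
        obtain ⟨j, rfl⟩ : ∃ j, k = j + 4 := ⟨k - 4, by omega⟩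
        have e3 : j + 4 - 1 = j + 3 := by omega
        have e4 : j + 4 - 4 = j := by omega
        have e5 : j + 4 - 3 = j + 1 := by omega
        rw [e3, e4, e5]
        ring

end Pool.Agent.W2helper11.RW
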